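import Pool.Agent.H72.BF.Targets5

/-! Board bf_modules, module CRT: coverings by few subspaces have finite certificates. -/

open Finset Module

namespace Pool.Agent.H79.BF

open Pool.Agent.H72.BF

/-- the size of the certificate -/
def cN (s : ℕ) : ℕ → ℕ
  | 0 => 1
  | n + 1 => 1 + s * cN s n

theorem cN_pos (s n : ℕ) : 1 ≤ cN s n := by
  cases n with
  | zero => exact le_refl _
  | succ n => exact Nat.le_add_right 1 _

open Classical in
theorem crt_aux (s r : ℕ) (k : Type) [Field k] (M : ℕ) (B : Set (Fin M → k)) :
    ∀ (n : ℕ) (U : Fin s → Submodule k (Fin M → k)), (∀ l, finrank k (U l) ≤ r) →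
      (∑ l, (r - finrank k (U l)) ≤ n) →
      (∀ T : Finset (Fin M → k), (∀ b ∈ T, b ∈ B) → T.card ≤ cN s n →
        ∃ W : Fin s → Submodule k (Fin M → k), (∀ l, U l ≤ W l) ∧ (∀ l, finrank k (W l) ≤ r) ∧
          ∀ b ∈ T, ∃ l, b ∈ W l) →
      ∃ W : Fin s → Submodule k (Fin M → k), (∀ l, U l ≤ W l) ∧ (∀ l, finrank k (W l) ≤ r) ∧
        ∀ b ∈ B, ∃ l, b ∈ W l := by
  intro n
  induction n with
  | zero =>
    intro U hU hs hT
    by_contra hcon
    have hb : ∃ b0 ∈ B, ∀ l, b0 ∉ U l := by
      by_contra h
      push Not at h
      exact hcon ⟨U, fun l => le_refl _, hU, h⟩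
    obtain ⟨b0, hb0, hb0'⟩ := hb
    obtain ⟨W, hUW, hW, hc⟩ := hT {b0} (by simpa using hb0) (by simp [cN])
    obtain ⟨l, hl⟩ := hc b0 (by simp)
    have hz : r - finrank k (U l) = 0 := by
      have h1 : r - finrank k (U l) ≤ ∑ l, (r - finrank k (U l)) :=
        Finset.single_le_sum (f := fun l => r - finrank k (U l)) (fun _ _ => Nat.zero_le _)
          (Finset.mem_univ l)
      omega
    have he : U l = W l := Submodule.eq_of_le_of_finrank_le (hUW l) (by
      have := hW l
      omega)
    exact hb0' l (he ▸ hl)
  | succ n ih =>
    intro U hU hs hT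
    by_contra hcon
    have hb : ∃ b0 ∈ B, ∀ l, b0 ∉ U l := by
      by_contra h
      push Not at h
      exact hcon ⟨U, fun l => le_refl _, hU, h⟩
    obtain ⟨b0, hb0, hb0'⟩ := hb
    -- the enlarged families
    have hnew : ∀ l, finrank k (U l) < r → ∃ T : Finset (Fin M → k), (∀ b ∈ T, b ∈ B) ∧
        T.card ≤ cN s n ∧ ¬ ∃ W : Fin s → Submodule k (Fin M → k),
          (∀ l', Function.update U l (U l ⊔ Submodule.span k {b0}) l' ≤ W l') ∧
          (∀ l', finrank k (W l') ≤ r) ∧ ∀ b ∈ T, ∃ l', b ∈ W l' := by
      intro l hl
      have hfr : finrank k (U l ⊔ Submodule.span k {b0} : Submodule k (Fin M → k)) ≤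
          finrank k (U l) + 1 := by
        have h1 := Submodule.finrank_add_le_finrank_add_finrank (U l) (Submodule.span k {b0})
        have h2 : finrank k (Submodule.span k {b0}) ≤ 1 := by
          simpa using finrank_span_le_card (R := k) ({b0} : Set (Fin M → k))
        omega
      have hlt : finrank k (U l) < finrank k (U l ⊔ Submodule.span k {b0} :
          Submodule k (Fin M → k)) := by
        apply Submodule.finrank_lt_finrank_of_lt
        refine lt_of_le_of_ne le_sup_left fun h => hb0' l ?_
        rw [h]
        exact Submodule.mem_sup_right (Submodule.mem_span_singleton_self b0)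
      by_contra hall
      push Not at hall
      apply hcon
      obtain ⟨W, hUW, hW, hc⟩ := ih (Function.update U l (U l ⊔ Submodule.span k {b0}))
        (by
          intro l'
          by_cases h : l' = l
          · subst h
            rw [Function.update_self]
            omega
          · rw [Function.update_of_ne h]
            exact hU l')
        (by
          have h1 : ∑ l', (r - finrank k (Function.update U l (U l ⊔ Submodule.span k {b0}) l')) <
              ∑ l', (r - finrank k (U l')) := by
            apply Finset.sum_lt_sum
            · intro l' _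
              by_cases h : l' = l
              · subst h
                rw [Function.update_self]
                omega
              · rw [Function.update_of_ne h]
            · refine ⟨l, Finset.mem_univ l, ?_⟩
              rw [Function.update_self]
              omega
          omega)
        (by
          intro T h1 h2
          obtain ⟨W, h3, h4, h5⟩ := hall T h1 h2
          exact ⟨W, h3, h4, h5⟩)
      refine ⟨W, fun l' => ?_, hW, hc⟩
      refine le_trans ?_ (hUW l')
      by_cases h : l' = l
      · subst h
        rw [Function.update_self]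
        exact le_sup_left
      · rw [Function.update_of_ne h]
    let T' : Fin s → Finset (Fin M → k) := fun l =>
      if h : finrank k (U l) < r then (hnew l h).choose else ∅
    have hT' : ∀ l, (∀ b ∈ T' l, b ∈ B) ∧ (T' l).card ≤ cN s n := by
      intro l
      by_cases h : finrank k (U l) < r
      · simp only [T', dif_pos h]
        exact ⟨(hnew l h).choose_spec.1, (hnew l h).choose_spec.2.1⟩
      · simp only [T', dif_neg h]
        simp
    obtain ⟨W, hUW, hW, hc⟩ := hT (insert b0 (Finset.univ.biUnion T'))
      (by
        intro b hb
        rw [Finset.mem_insert] at hb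
        rcases hb with rfl | hb
        · exact hb0
        · obtain ⟨l, _, hl⟩ := Finset.mem_biUnion.1 hb
          exact (hT' l).1 b hl)
      (by
        refine le_trans (Finset.card_insert_le _ _) ?_
        have h1 : (Finset.univ.biUnion T').card ≤ (Finset.univ : Finset (Fin s)).card * cN s n :=
          Finset.card_biUnion_le_card_mul _ _ _ fun l _ => (hT' l).2
        rw [Finset.card_univ, Fintype.card_fin] at h1
        rw [cN]
        omega)
    obtain ⟨l, hl⟩ := hc b0 (Finset.mem_insert_self _ _)
    by_cases h : finrank k (U l) < r
    · refine (hnew l h).choose_spec.2.2 ⟨W, fun l' => ?_, hW, fun b hb => ?_⟩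
      · by_cases h' : l' = l
        · subst h'
          rw [Function.update_self]
          refine sup_le (hUW l') ?_
          rw [Submodule.span_singleton_le_iff_mem]
          exact hl
        · rw [Function.update_of_ne h']
          exact hUW l'
      · apply hc
        apply Finset.mem_insert_of_mem
        refine Finset.mem_biUnion.2 ⟨l, Finset.mem_univ l, ?_⟩
        simp only [T', dif_pos h]
        exact hb
    · have he : U l = W l := Submodule.eq_of_le_of_finrank_le (hUW l) (by
        have := hW l
        omega)
      exact hb0' l (he ▸ hl)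

/-- CRT: coverings by few subspaces have finite certificates -/
theorem crt : T_CRT := by
  classical
  intro s r
  refine ⟨cN s (s * r), ?_⟩
  intro k _ M B hB
  obtain ⟨W, _, hW, hc⟩ := crt_aux s r k M B (s * r) (fun _ => ⊥)
    (by
      intro l
      rw [finrank_bot]
      exact Nat.zero_le r)
    (by
      simp [finrank_bot])
    (by
      intro T hT hcard
      rcases T.eq_empty_or_nonempty with rfl | hne
      · exact ⟨fun _ => ⊥, fun _ => le_refl _, fun l => by rw [finrank_bot]; exact Nat.zero_le r,
          by simp⟩
      · obtain ⟨t0, ht0⟩ := hne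
        let f : Fin (cN s (s * r)) → Fin M → k := fun i =>
          if h : i.1 < T.card then ((T.equivFin.symm ⟨i.1, h⟩ : T) : Fin M → k) else t0
        obtain ⟨U, hU, hcov⟩ := hB f (by
          intro i
          by_cases h : i.1 < T.card
          · simp only [f, dif_pos h]
            exact hT _ (T.equivFin.symm ⟨i.1, h⟩).2
          · simp only [f, dif_neg h]
            exact hT _ ht0)
        refine ⟨U, fun l => bot_le, hU, fun b hb => ?_⟩
        have hlt : (T.equivFin ⟨b, hb⟩).1 < T.card := (T.equivFin ⟨b, hb⟩).2
        obtain ⟨l, hl⟩ := hcov ⟨(T.equivFin ⟨b, hb⟩).1, lt_of_lt_of_le hlt hcard⟩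
        refine ⟨l, ?_⟩
        simpa only [f, dif_pos hlt, Fin.eta, Equiv.symm_apply_apply] using hl)
  exact ⟨W, hW, hc⟩

end Pool.Agent.H79.BF
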