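import Pool.Agent.H72.BF.Targets5

open Finset Module

namespace Pool.Agent.H79.BF

open Pool.Agent.H72.BF

/-- substitution of polynomials of degree at most one does not raise the total degree -/
theorem totalDegree_bind_le {K : Type} [Field K] (f : Fin 2 → MvPolynomial (Fin 2) K)
    (hf : ∀ i, (f i).totalDegree ≤ 1) (Q : MvPolynomial (Fin 2) K) :
    (MvPolynomial.bind₁ f Q).totalDegree ≤ Q.totalDegree := by
  classical
  have h : MvPolynomial.bind₁ f Q
      = ∑ m ∈ Q.support, MvPolynomial.C (Q.coeff m) * ∏ i, f i ^ m i := by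
    conv_lhs => rw [Q.as_sum]
    rw [map_sum]
    refine Finset.sum_congr rfl fun m _ => ?_
    rw [MvPolynomial.bind₁_monomial]
    congr 1
    rw [Finset.prod_subset (Finset.subset_univ m.support)]
    intro i _ hi
    rw [Finsupp.notMem_support_iff] at hi
    rw [hi, pow_zero]
  rw [h]
  refine MvPolynomial.totalDegree_finsetSum_le fun m hm => ?_
  have h1 : (MvPolynomial.C (Q.coeff m) * ∏ i, f i ^ m i).totalDegree
      ≤ 0 + ∑ i, m i := by
    refine le_trans (MvPolynomial.totalDegree_mul _ _) ?_
    rw [MvPolynomial.totalDegree_C]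
    refine Nat.add_le_add_left ?_ 0
    refine le_trans (MvPolynomial.totalDegree_finsetProd _ _) ?_
    refine Finset.sum_le_sum fun i _ => ?_
    refine le_trans (MvPolynomial.totalDegree_pow _ _) ?_
    calc m i * (f i).totalDegree ≤ m i * 1 := Nat.mul_le_mul_left _ (hf i)
      _ = m i := Nat.mul_one _
  refine le_trans h1 ?_
  rw [zero_add]
  have h2 := MvPolynomial.le_totalDegree hm
  rw [Finsupp.sum_fintype _ _ (fun _ => rfl)] at h2
  exact h2

/-- adding a linear function of `t` does not change the degree of the relation -/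
theorem relD_add {K F : Type} [Field K] [Field F] [Algebra K F] {t z : F} {d : ℕ} (a b : K)
    (h : RelD K t d z) : RelD K t d (a • (1 : F) + (b • t + z)) := by
  obtain ⟨Q, hQ, hdeg, hval⟩ := h
  let f : Fin 2 → MvPolynomial (Fin 2) K :=
    ![MvPolynomial.X 0, MvPolynomial.X 1 - (MvPolynomial.C a + MvPolynomial.C b * MvPolynomial.X 0)]
  let g : Fin 2 → MvPolynomial (Fin 2) K :=
    ![MvPolynomial.X 0, MvPolynomial.X 1 + (MvPolynomial.C a + MvPolynomial.C b * MvPolynomial.X 0)]
  have hlin : (MvPolynomial.C a + MvPolynomial.C b * MvPolynomial.X 0 :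
      MvPolynomial (Fin 2) K).totalDegree ≤ 1 := by
    refine le_trans (MvPolynomial.totalDegree_add _ _) (max_le ?_ ?_)
    · rw [MvPolynomial.totalDegree_C]; exact Nat.zero_le _
    · refine le_trans (MvPolynomial.totalDegree_mul _ _) ?_
      rw [MvPolynomial.totalDegree_C, MvPolynomial.totalDegree_X]
  have hf : ∀ i, (f i).totalDegree ≤ 1 := by
    intro i
    fin_cases i
    · change (MvPolynomial.X 0 : MvPolynomial (Fin 2) K).totalDegree ≤ 1
      rw [MvPolynomial.totalDegree_X]
    · change (MvPolynomial.X 1 - (MvPolynomial.C a + MvPolynomial.C b * MvPolynomial.X 0) :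
        MvPolynomial (Fin 2) K).totalDegree ≤ 1
      refine le_trans (MvPolynomial.totalDegree_sub _ _) (max_le ?_ hlin)
      rw [MvPolynomial.totalDegree_X]
  refine ⟨MvPolynomial.bind₁ f Q, ?_, le_trans (totalDegree_bind_le f hf Q) hdeg, ?_⟩
  · intro h0
    apply hQ
    have hcomp : MvPolynomial.bind₁ g (MvPolynomial.bind₁ f Q) = Q := by
      rw [MvPolynomial.bind₁_bind₁]
      have hid : (fun i => MvPolynomial.bind₁ g (f i)) = MvPolynomial.X := by
        funext i
        fin_cases i
        · change MvPolynomial.bind₁ g (MvPolynomial.X 0) = MvPolynomial.X 0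
          rw [MvPolynomial.bind₁_X_right]
          rfl
        · change MvPolynomial.bind₁ g (MvPolynomial.X 1 -
            (MvPolynomial.C a + MvPolynomial.C b * MvPolynomial.X 0)) = MvPolynomial.X 1
          rw [map_sub, map_add, map_mul, MvPolynomial.bind₁_X_right, MvPolynomial.bind₁_X_right,
            MvPolynomial.algHom_C, MvPolynomial.algHom_C]
          change (MvPolynomial.X 1 + (MvPolynomial.C a + MvPolynomial.C b * MvPolynomial.X 0))
            - (MvPolynomial.C a + MvPolynomial.C b * MvPolynomial.X 0) = _
          ring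
      rw [hid]
      exact MvPolynomial.aeval_X_left_apply Q
    rw [← hcomp, h0, map_zero]
  · rw [MvPolynomial.aeval_bind₁]
    have hval' : (fun i => MvPolynomial.aeval ![t, a • (1 : F) + (b • t + z)] (f i))
        = ![t, z] := by
      funext i
      fin_cases i
      · change MvPolynomial.aeval ![t, a • (1 : F) + (b • t + z)] (MvPolynomial.X 0) = t
        rw [MvPolynomial.aeval_X]
        rfl
      · change MvPolynomial.aeval ![t, a • (1 : F) + (b • t + z)] (MvPolynomial.X 1 -
            (MvPolynomial.C a + MvPolynomial.C b * MvPolynomial.X 0)) = z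
        rw [map_sub, map_add, map_mul, MvPolynomial.aeval_X, MvPolynomial.aeval_X,
          MvPolynomial.algHom_C, MvPolynomial.algHom_C]
        change (a • (1 : F) + (b • t + z)) - (algebraMap K F a + algebraMap K F b * t) = z
        rw [Algebra.smul_def, Algebra.smul_def]
        ring
    rw [hval', hval]

theorem exs (h1 : T_CVR) (h2 : T_SPT) : T_EXS := by
  classical
  intro d M
  obtain ⟨s, hs⟩ := h1 d M
  refine ⟨s, ?_⟩
  intro K F _ _ _ _ _ t y hli
  have hli' := Fintype.linearIndependent_iff.1 hli
  have ht : Transcendental K t := by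
    intro halg
    have hint : IsIntegral K t := halg.isIntegral
    have hdeg : (minpoly K t).degree = 1 :=
      IsAlgClosed.degree_eq_one_of_irreducible K (minpoly.irreducible hint)
    obtain ⟨c, hc⟩ := minpoly.mem_range_of_degree_eq_one K t hdeg
    have hg := hli' (Fin.cons c (Fin.cons (-1) 0)) (by
      rw [Fin.sum_univ_succ, Fin.sum_univ_succ]
      simp only [Fin.cons_zero, Fin.cons_succ, Pi.zero_apply, zero_smul, Finset.sum_const_zero]
      rw [Algebra.smul_def, hc]
      simp) 1
    have : (-1 : K) = 0 := hg
    simp at this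
  obtain ⟨Ws, hcard, hin, hcov⟩ := hs K F t ht y
  have hsum : ∀ v : Fin M → K, ∑ j, algebraMap K F (v j) * y j
      = Fintype.linearCombination K y v := by
    intro v
    rw [Fintype.linearCombination_apply]
    exact Finset.sum_congr rfl fun j _ => (Algebra.smul_def _ _).symm
  have hdim : ∀ W ∈ Ws, finrank K W ≤ d - 1 := by
    intro W hW
    let Ψ : (K × K × W) →ₗ[K] F :=
      LinearMap.coprod (LinearMap.toSpanSingleton K F 1)
        (LinearMap.coprod (LinearMap.toSpanSingleton K F t)
          ((Fintype.linearCombination K y).comp W.subtype))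
    have hΨ : ∀ a b (v : W), Ψ (a, b, v) = a • (1 : F) + (b • t +
        Fintype.linearCombination K y (v : Fin M → K)) := by
      intro a b v
      rfl
    have hinj : Function.Injective Ψ := by
      rw [injective_iff_map_eq_zero]
      rintro ⟨a, b, v⟩ h0
      rw [hΨ] at h0
      have hg := hli' (Fin.cons a (Fin.cons b (v : Fin M → K))) (by
        rw [Fin.sum_univ_succ, Fin.sum_univ_succ]
        simp only [Fin.cons_zero, Fin.cons_succ]
        rw [Fintype.linearCombination_apply] at h0
        exact h0)
      have ha : a = 0 := hg 0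
      have hb : b = 0 := hg 1
      have hv : v = 0 := by
        apply Subtype.ext
        funext j
        exact hg j.succ.succ
      rw [ha, hb, hv]
      rfl
    have hfd : FiniteDimensional K (LinearMap.range Ψ) := inferInstance
    have hle := h2 K F t ht d (LinearMap.range Ψ) hfd (by
      rintro z ⟨⟨a, b, v⟩, rfl⟩
      rw [hΨ]
      refine relD_add a b ?_
      rw [← hsum]
      exact hin W hW v v.2)
    rw [LinearMap.finrank_range_of_inj hinj] at hle
    simp only [Module.finrank_prod, Module.finrank_self] at hle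
    omega
  obtain ⟨e⟩ : Nonempty (Ws ↪ Fin s) := by
    rw [Function.Embedding.nonempty_iff_card_le]
    simpa using hcard
  refine ⟨fun i => if h : ∃ W : Ws, e W = i then (h.choose : Submodule K (Fin M → K)) else ⊥,
    ?_, ?_⟩
  · intro i
    beta_reduce
    by_cases h : ∃ W : Ws, e W = i
    · rw [dif_pos h]
      exact hdim _ h.choose.2
    · rw [dif_neg h]
      simp
  · intro v hv
    obtain ⟨W, hW, hvW⟩ := hcov v hv
    refine ⟨e ⟨W, hW⟩, ?_⟩
    have h : ∃ W' : Ws, e W' = e ⟨W, hW⟩ := ⟨⟨W, hW⟩, rfl⟩
    beta_reduce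
    rw [dif_pos h]
    have := e.injective h.choose_spec
    rw [this]
    exact hvW

end Pool.Agent.H79.BF
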